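import Pool.Agent.Q77.LU.StmH

/-! # Basic facts for the jobs FAM and THD -/

set_option autoImplicit false
set_option linter.unusedSectionVars false

namespace Pool.Agent.Q164.LU

open Pool.Agent.Q77.LU
open MeasureTheory Matrix Set Filter Topology
open scoped ContDiff Matrix.Norms.Frobenius

noncomputable section

lemma secondCountable {N : ℕ} (G : Subgroup (UU N)) : SecondCountableTopology G := by
  have h0 : SecondCountableTopology (Mt N) :=
    inferInstanceAs (SecondCountableTopology (Fin N → Fin N → ℂ))
  have h00 : SecondCountableTopology (UU N) := TopologicalSpace.Subtype.secondCountableTopology _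
  exact TopologicalSpace.Subtype.secondCountableTopology _

lemma compactUU (N : ℕ) : CompactSpace (UU N) := by
  have h1 : IsClosed ((Matrix.unitaryGroup (Fin N) ℂ : Submonoid (Mt N)) : Set (Mt N)) :=
    isClosed_unitary
  have h3 : IsCompact (Set.univ.pi fun _ : Fin N => Set.univ.pi fun _ : Fin N =>
      Metric.closedBall (0 : ℂ) 1) :=
    isCompact_univ_pi fun _ => isCompact_univ_pi fun _ => isCompact_closedBall 0 1
  have h2 : IsCompact ((Matrix.unitaryGroup (Fin N) ℂ : Submonoid (Mt N)) : Set (Mt N)) := by
    refine IsCompact.of_isClosed_subset h3 h1 fun u hu => ?_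
    intro i _ j _
    rw [mem_closedBall_zero_iff]
    exact entry_norm_bound_of_unitary hu i j
  exact isCompact_iff_compactSpace.mp h2

lemma compactG {N : ℕ} {G : Subgroup (UU N)} (hG : IsClosed (G : Set (UU N))) : CompactSpace G := by
  have := compactUU N
  have h1 : IsCompact (G : Set (UU N)) := hG.isCompact
  exact isCompact_iff_compactSpace.1 h1

lemma continuous_mt {N : ℕ} {G : Subgroup (UU N)} : Continuous (mt : G → Mt N) :=
  continuous_subtype_val.comp continuous_subtype_val

lemma mt_mul {N : ℕ} {G : Subgroup (UU N)} (g h : G) : mt (g * h) = mt g * mt h := rfl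

lemma mt_one {N : ℕ} {G : Subgroup (UU N)} : mt (1 : G) = 1 := rfl

lemma mt_inv {N : ℕ} {G : Subgroup (UU N)} (g : G) : mt g⁻¹ = (mt g)ᴴ := rfl

lemma mt_inj {N : ℕ} {G : Subgroup (UU N)} {g h : G} (e : mt g = mt h) : g = h :=
  Subtype.ext (Subtype.ext e)

section

variable {N n D l : ℕ} {G : Subgroup (UU N)} [NeZero l]

lemma continuous_mtU : Continuous (fun (U : Link D l → G) (e : Link D l) => mt (U e)) :=
  continuous_pi fun e => continuous_mt.comp (continuous_apply e)

lemma IsSmooth.continuous' {F : (Link D l → G) → ℝ} (hF : IsSmooth F) : Continuous F := by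
  obtain ⟨f, hf, h⟩ := hF
  have : F = fun U => f fun e => mt (U e) := funext h
  rw [this]
  exact hf.continuous.comp continuous_mtU

lemma hasDerivAt_upd (B : LieBasis G n) (e : Link D l) (a : Fin n) (U : Link D l → G) :
    HasDerivAt (fun (t : ℝ) (e' : Link D l) => mt (Function.update U e (B.ex a t * U e) e'))
      (Pi.single e (B.X a * mt (U e))) 0 := by
  refine hasDerivAt_pi.2 fun e' => ?_
  by_cases h : e' = e
  · subst h
    simp only [Function.update_self, Pi.single_eq_same]
    have h1 : (fun t : ℝ => mt (B.ex a t * U e')) =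
        fun t : ℝ => NormedSpace.exp (t • B.X a) * mt (U e') := by
      funext t
      rw [mt_mul, B.ex_eq]
    rw [h1]
    have h2 := hasDerivAt_exp_smul_const (𝕂 := ℝ) (B.X a) (0 : ℝ)
    simp only [zero_smul, NormedSpace.exp_zero, one_mul] at h2
    exact h2.mul_const (mt (U e'))
  · have h1 : (fun t : ℝ => mt (Function.update U e (B.ex a t * U e) e')) = fun _ => mt (U e') := by
      funext t
      rw [Function.update_of_ne h]
    rw [h1, Pi.single_eq_of_ne h]
    exact hasDerivAt_const _ _

lemma ex_zero (B : LieBasis G n) (a : Fin n) : B.ex a 0 = 1 := by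
  apply mt_inj
  rw [B.ex_eq, zero_smul, NormedSpace.exp_zero, mt_one]

lemma upd_zero (B : LieBasis G n) (e : Link D l) (a : Fin n) (U : Link D l → G) :
    Function.update U e (B.ex a 0 * U e) = U := by
  rw [ex_zero, one_mul, Function.update_eq_self]

lemma hasDerivAt_dlink (B : LieBasis G n) (e : Link D l) (a : Fin n)
    {f : (Link D l → Mt N) → ℝ} (hf : ContDiff ℝ ∞ f) {F : (Link D l → G) → ℝ}
    (h : ∀ U, F U = f fun e => mt (U e)) (U : Link D l → G) :
    HasDerivAt (fun t => F (Function.update U e (B.ex a t * U e)))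
      (fderiv ℝ f (fun e => mt (U e)) (Pi.single e (B.X a * mt (U e)))) 0 := by
  have h1 : (fun t => F (Function.update U e (B.ex a t * U e))) =
      fun t => f fun e' => mt (Function.update U e (B.ex a t * U e) e') := funext fun t => h _
  rw [h1]
  have h2 : HasFDerivAt f (fderiv ℝ f (fun e => mt (U e)))
      (fun e' => mt (Function.update U e (B.ex a 0 * U e) e')) := by
    rw [upd_zero]
    exact ((hf.differentiable (by simp)) _).hasFDerivAt
  exact h2.comp_hasDerivAt (0 : ℝ) (hasDerivAt_upd B e a U)

lemma dlink_eq (B : LieBasis G n) (e : Link D l) (a : Fin n)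
    {f : (Link D l → Mt N) → ℝ} (hf : ContDiff ℝ ∞ f) {F : (Link D l → G) → ℝ}
    (h : ∀ U, F U = f fun e => mt (U e)) (U : Link D l → G) :
    dlink B e a F U = fderiv ℝ f (fun e => mt (U e)) (Pi.single e (B.X a * mt (U e))) :=
  (hasDerivAt_dlink B e a hf h U).deriv

lemma continuous_dlink (B : LieBasis G n) (e : Link D l) (a : Fin n) {F : (Link D l → G) → ℝ}
    (hF : IsSmooth F) : Continuous (dlink B e a F) := by
  obtain ⟨f, hf, h⟩ := hF
  have h1 : dlink B e a F =
      fun U : Link D l → G => fderiv ℝ f (fun e => mt (U e)) (Pi.single e (B.X a * mt (U e))) :=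
    funext fun U => dlink_eq B e a hf h U
  rw [h1]
  have h2 : Continuous (fderiv ℝ f) := hf.continuous_fderiv (by simp)
  have h3 : Continuous fun U : Link D l → G => fderiv ℝ f (fun e => mt (U e)) :=
    h2.comp continuous_mtU
  have h4 : Continuous fun U : Link D l → G =>
      (Pi.single e (B.X a * mt (U e)) : Link D l → Mt N) :=
    (continuous_single e).comp (continuous_const.mul (continuous_mt.comp (continuous_apply e)))
  exact h3.clm_apply h4

lemma dlink_sum {ι : Type} [Fintype ι] (B : LieBasis G n) (e : Link D l) (a : Fin n)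
    (Ψ : ι → (Link D l → G) → ℝ) (hΨ : ∀ i, IsSmooth (Ψ i)) (c : ι → ℝ) (U : Link D l → G) :
    dlink B e a (fun U => ∑ i, c i * Ψ i U) U = ∑ i, c i * dlink B e a (Ψ i) U := by
  unfold dlink
  have h : ∀ i, HasDerivAt (fun t => Ψ i (Function.update U e (B.ex a t * U e)))
      (deriv (fun t => Ψ i (Function.update U e (B.ex a t * U e))) 0) 0 := by
    intro i
    obtain ⟨f, hf, h⟩ := hΨ i
    exact (hasDerivAt_dlink B e a hf h U).differentiableAt.hasDerivAt
  have h2 := HasDerivAt.fun_sum (u := Finset.univ) fun i (_ : i ∈ Finset.univ) =>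
    (h i).const_mul (c i)
  exact h2.deriv

lemma continuous_magnetic : Continuous (magnetic : (Link D l → G) → ℝ) := by
  unfold magnetic
  refine continuous_finsetSum _ fun x _ => continuous_finsetSum _ fun i _ =>
    continuous_finsetSum _ fun j _ => ?_
  split_ifs
  · refine Complex.continuous_re.comp (Continuous.matrix_trace (continuous_const.sub
      (continuous_mt.comp ?_)))
    unfold plaq
    fun_prop
  · exact continuous_const

lemma IsSmooth.const_mul {F : (Link D l → G) → ℝ} (hF : IsSmooth F) (c : ℝ) :
    IsSmooth (fun U => c * F U) := by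
  obtain ⟨f, hf, h⟩ := hF
  exact ⟨fun M => c * f M, contDiff_const.mul hf, fun U => by simp only [h U]⟩

end

end

end Pool.Agent.Q164.LU
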