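import Pool.Agent.Q164.LU.B

/-! # Job FAM: there are many invariant functions -/

set_option autoImplicit false
set_option linter.unusedSectionVars false

namespace Pool.Agent.Q164.LU

open Pool.Agent.Q77.LU
open MeasureTheory Matrix Set Filter Topology
open scoped ContDiff Matrix.Norms.Frobenius

noncomputable section

/-- bump with support `(a, b)` -/
def bmp (a b t : ℝ) : ℝ := expNegInvGlue (t - a) * expNegInvGlue (b - t)

lemma bmp_contDiff (a b : ℝ) : ContDiff ℝ ∞ (bmp a b) := by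
  unfold bmp
  exact (expNegInvGlue.contDiff.comp (contDiff_id.sub contDiff_const)).mul
    (expNegInvGlue.contDiff.comp (contDiff_const.sub contDiff_id))

lemma bmp_pos {a b t : ℝ} (h1 : a < t) (h2 : t < b) : 0 < bmp a b t :=
  mul_pos (expNegInvGlue.pos_of_pos (by linarith)) (expNegInvGlue.pos_of_pos (by linarith))

lemma bmp_ne {a b t : ℝ} (h : bmp a b t ≠ 0) : a < t ∧ t < b := by
  constructor
  · by_contra h'
    exact h (by unfold bmp; rw [expNegInvGlue.zero_of_nonpos (by linarith), zero_mul])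
  · by_contra h'
    exact h (by unfold bmp; rw [expNegInvGlue.zero_of_nonpos (by linarith : b - t ≤ 0), mul_zero])

lemma contDiff_n2 {ι : Type} [Fintype ι] : ContDiff ℝ ∞ (n2 : (ι → ℝ) → ℝ) := by
  unfold n2
  exact ContDiff.sum fun i _ => (contDiff_apply ℝ ℝ i).pow 2

lemma contDiff_nx {P Q : Type} [Fintype P] [Fintype Q] :
    ContDiff ℝ ∞ (nx : (P → ℝ) × (Q → ℝ) → ℝ) := by
  unfold nx
  exact (contDiff_n2.comp contDiff_fst).add (contDiff_n2.comp contDiff_snd)

lemma exists_nx {P Q : Type} [Fintype P] [DecidableEq P] [Fintype Q] (p : P) {t : ℝ}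
    (ht : 0 ≤ t) : ∃ x : (P → ℝ) × (Q → ℝ), nx x = t := by
  refine ⟨(Pi.single p (Real.sqrt t), 0), ?_⟩
  have h1 : n2 (Pi.single p (Real.sqrt t) : P → ℝ) = t := by
    unfold n2
    rw [Finset.sum_eq_single p]
    · rw [Pi.single_eq_same, Real.sq_sqrt ht]
    · intro j _ hj
      rw [Pi.single_eq_of_ne hj]
      norm_num
    · intro h
      exact absurd (Finset.mem_univ p) h
  have h2 : n2 (0 : Q → ℝ) = 0 := by
    unfold n2
    simp
  unfold nx
  simp only [h1, h2, add_zero]

/-- There are many invariant functions. -/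
theorem t_FAM (_h1 : S_PULL) (h2 : S_SYMM) : S_FAM := by
  intro N n D l _ G hG B _ _ μ _ _ dc L hch hD hn k g hg
  classical
  have hcomp : CompactSpace G := compactG hG
  have hsec : SecondCountableTopology G := secondCountable G
  set MU : Measure (Link D l → G) := Measure.pi fun _ : Link D l => μ with hMU
  have hint : ∀ {F : (Link D l → G) → ℝ}, Continuous F → Integrable F MU := fun hF =>
    hF.integrable_of_hasCompactSupport (HasCompactSupport.of_compactSpace _)
  -- invariance of `nx`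
  have hnx : ∀ (h : G) (x : (Fin D × Fin n → ℝ) × (Fin dc.M → ℝ)), nx (dc.sg h x) = nx x := by
    intro h x
    have h3 := h2 N n D l G hG B dc h x
    unfold nx
    rw [h3.2.1, h3.2.2.1]
  -- the radial functions
  set ρ : ℝ := L.r / 2 with hρ
  have hr := L.rpos
  have hρ0 : 0 < ρ := by positivity
  have hρ1 : ρ < L.r := by rw [hρ]; linarith
  set s : ℝ := ρ ^ 2 / (k + 1) with hs
  have hs0 : 0 < s := by positivity
  have hsk : s * (k + 1) = ρ ^ 2 := by
    rw [hs]
    field_simp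
  set f : Fin (k + 1) → (Fin D × Fin n → ℝ) × (Fin dc.M → ℝ) → ℝ := fun i x =>
    bmp (s * (i : ℕ)) (s * ((i : ℕ) + 1)) (nx x) with hf
  have hfs : ∀ i, ContDiff ℝ ∞ (f i) := fun i => (bmp_contDiff _ _).comp contDiff_nx
  have hfρ : ∀ i x, f i x ≠ 0 → nx x < ρ ^ 2 := by
    intro i x hx
    have h3 := (bmp_ne hx).2
    have h4 : ((i : ℕ) : ℝ) ≤ k := by
      have := i.2
      have h5 : (i : ℕ) ≤ k := by omega
      exact_mod_cast h5
    have h5 : s * ((i : ℕ) + 1) ≤ s * (k + 1) :=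
      mul_le_mul_of_nonneg_left (by linarith) hs0.le
    linarith
  have hfinv : ∀ i (h : G) x, f i (dc.sg h x) = f i x := by
    intro i h x
    simp only [hf, hnx]
  have hfd : ∀ i j, i ≠ j → ∀ x, f i x * f j x = 0 := by
    intro i j hij x
    by_contra h3
    have h4 := bmp_ne (left_ne_zero_of_mul h3)
    have h5 := bmp_ne (right_ne_zero_of_mul h3)
    rcases lt_or_gt_of_ne hij with h | h
    · have h6 : ((i : ℕ) : ℝ) + 1 ≤ (j : ℕ) := by
        have : (i : ℕ) + 1 ≤ (j : ℕ) := h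
        exact_mod_cast this
      have h7 : s * ((i : ℕ) + 1) ≤ s * (j : ℕ) := mul_le_mul_of_nonneg_left h6 hs0.le
      linarith [h4.2, h5.1]
    · have h6 : ((j : ℕ) : ℝ) + 1 ≤ (i : ℕ) := by
        have : (j : ℕ) + 1 ≤ (i : ℕ) := h
        exact_mod_cast this
      have h7 : s * ((j : ℕ) + 1) ≤ s * (i : ℕ) := mul_le_mul_of_nonneg_left h6 hs0.le
      linarith [h4.1, h5.2]
  -- lifts
  have hlift := fun i => hch.lift ρ hρ0 hρ1 (f i) (hfs i) (hfρ i) (hfinv i)
  choose F hF1 hF2 hF3 hF4 hF5 using hlift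
  have hval : ∀ i γ z x, (∀ i, z i ∈ Subgroup.center G) → nx x < ρ ^ 2 →
      F i (gauge γ (centre z (dc.ch x))) = f i x := by
    intro i γ z x hz hx
    rw [hF2 i, hF3 i z hz, hF4 i x]
    have : ρ ^ 2 < L.r ^ 2 := by gcongr
    linarith
  have hdis : ∀ i j, i ≠ j → ∀ U, F i U * F j U = 0 := by
    intro i j hij U
    by_contra h3
    obtain ⟨γ, z, x, hz, hx, hU⟩ := hF5 i U (left_ne_zero_of_mul h3)
    rw [hU, hval i γ z x hz hx, hval j γ z x hz hx] at h3
    exact h3 (hfd i j hij x)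
  have hFc : ∀ i, Continuous (F i) := fun i => IsSmooth.continuous' (hF1 i)
  have hpos : ∀ i, 0 < ∫ U, F i U ^ 2 ∂MU := by
    intro i
    have hc : Continuous fun U => F i U ^ 2 := (hFc i).pow 2
    obtain ⟨x, hx⟩ := exists_nx (P := Fin D × Fin n) (Q := Fin dc.M) (⟨0, hD⟩, ⟨0, hn⟩)
      (t := s * ((i : ℕ) + 1 / 2)) (by positivity)
    have h3 : 0 < f i x := by
      simp only [hf, hx]
      apply bmp_pos
      · exact mul_lt_mul_of_pos_left (by linarith) hs0
      · exact mul_lt_mul_of_pos_left (by linarith) hs0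
    have h4 : F i (dc.ch x) = f i x := by
      apply hF4
      have h5 := hfρ i x h3.ne'
      have : ρ ^ 2 < L.r ^ 2 := by gcongr
      linarith
    refine hc.integral_pos_of_hasCompactSupport_nonneg_nonzero
      (HasCompactSupport.of_compactSpace _) (fun U => sq_nonneg _) (x := dc.ch x) ?_
    show F i (dc.ch x) ^ 2 ≠ 0
    rw [h4]
    positivity
  set c0 : Fin (k + 1) → ℝ := fun i => (Real.sqrt (∫ U, F i U ^ 2 ∂MU))⁻¹ with hc0
  set Ψ : Fin (k + 1) → (Link D l → G) → ℝ := fun i U => c0 i * F i U with hΨ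
  have hΨs : ∀ i, IsSmooth (Ψ i) := fun i => IsSmooth.const_mul (hF1 i) (c0 i)
  have hΨc : ∀ i, Continuous (Ψ i) := fun i => IsSmooth.continuous' (hΨs i)
  have hΨd : ∀ i j, i ≠ j → ∀ U, Ψ i U * Ψ j U = 0 := by
    intro i j hij U
    have h3 := hdis i j hij U
    calc Ψ i U * Ψ j U = c0 i * c0 j * (F i U * F j U) := by simp only [hΨ]; ring
      _ = 0 := by rw [h3, mul_zero]
  refine ⟨g ^ 2 / 2 * (∑ e : Link D l, ∑ a : Fin n, ∫ U, (∑ i, dlink B e a (Ψ i) U ^ 2) ∂MU) +
    1 / g ^ 2 * ∑ i, |∫ U, magnetic U * Ψ i U ^ 2 ∂MU|, Ψ, fun i => ⟨hΨs i, ?_, ?_⟩, ?_, ?_⟩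
  · intro γ U
    simp only [hΨ, hF2 i γ U]
  · intro z hz U
    simp only [hΨ, hF3 i z hz U]
  · intro i j
    split_ifs with hij
    · subst hij
      have h3 : (fun U => Ψ i U * Ψ i U) = fun U => c0 i ^ 2 * F i U ^ 2 := by
        funext U
        simp only [hΨ]
        ring
      rw [h3, integral_const_mul]
      simp only [hc0]
      rw [inv_pow, Real.sq_sqrt (hpos i).le]
      exact inv_mul_cancel₀ (hpos i).ne'
    · have h3 : (fun U => Ψ i U * Ψ j U) = fun _ => 0 := funext fun U => hΨd i j hij U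
      rw [h3, integral_zero]
  · intro c
    have hcs : ∀ a : Fin (k + 1) → ℝ, (∑ i, c i * a i) ^ 2 ≤ (∑ i, c i ^ 2) * ∑ i, a i ^ 2 :=
      fun a => Finset.sum_mul_sq_le_sq_mul_sq Finset.univ c a
    have hS0 : 0 ≤ ∑ i, c i ^ 2 := Finset.sum_nonneg fun i _ => sq_nonneg _
    have hkin : ∀ (e : Link D l) (a : Fin n),
        ∫ U, (dlink B e a (fun U => ∑ i, c i * Ψ i U) U) ^ 2 ∂MU ≤
          (∑ i, c i ^ 2) * ∫ U, (∑ i, dlink B e a (Ψ i) U ^ 2) ∂MU := by
      intro e a
      rw [← integral_const_mul]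
      refine integral_mono_of_nonneg (Eventually.of_forall fun U => sq_nonneg _)
        (hint ?_) (Eventually.of_forall fun U => ?_)
      · exact continuous_const.mul (continuous_finsetSum _ fun i _ =>
          (continuous_dlink B e a (hΨs i)).pow 2)
      · show (dlink B e a (fun U => ∑ i, c i * Ψ i U) U) ^ 2 ≤ _
        rw [dlink_sum B e a Ψ hΨs c U]
        exact hcs _
    have hsq : ∀ U, (∑ i, c i * Ψ i U) ^ 2 = ∑ i, c i ^ 2 * Ψ i U ^ 2 := by
      intro U
      rw [sq, Finset.sum_mul_sum]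
      refine Finset.sum_congr rfl fun i _ => ?_
      rw [Finset.sum_eq_single i]
      · ring
      · intro j _ hj
        have := hΨd i j (Ne.symm hj) U
        calc c i * Ψ i U * (c j * Ψ j U) = c i * c j * (Ψ i U * Ψ j U) := by ring
          _ = 0 := by rw [this, mul_zero]
      · intro h
        exact absurd (Finset.mem_univ i) h
    have hpot : ∫ U, magnetic U * (∑ i, c i * Ψ i U) ^ 2 ∂MU ≤
        (∑ i, c i ^ 2) * ∑ i, |∫ U, magnetic U * Ψ i U ^ 2 ∂MU| := by
      have h3 : (fun U => magnetic U * (∑ i, c i * Ψ i U) ^ 2) =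
          fun U => ∑ i, c i ^ 2 * (magnetic U * Ψ i U ^ 2) := by
        funext U
        rw [hsq, Finset.mul_sum]
        exact Finset.sum_congr rfl fun i _ => by ring
      rw [h3, integral_finsetSum]
      · rw [Finset.mul_sum]
        refine Finset.sum_le_sum fun i _ => ?_
        rw [integral_const_mul]
        have h4 : c i ^ 2 ≤ ∑ i, c i ^ 2 :=
          Finset.single_le_sum (f := fun i => c i ^ 2) (fun i _ => sq_nonneg _) (Finset.mem_univ i)
        calc c i ^ 2 * ∫ U, magnetic U * Ψ i U ^ 2 ∂MU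
            ≤ c i ^ 2 * |∫ U, magnetic U * Ψ i U ^ 2 ∂MU| :=
              mul_le_mul_of_nonneg_left (le_abs_self _) (sq_nonneg _)
          _ ≤ (∑ i, c i ^ 2) * |∫ U, magnetic U * Ψ i U ^ 2 ∂MU| :=
              mul_le_mul_of_nonneg_right h4 (abs_nonneg _)
      · intro i _
        exact hint (continuous_const.mul (continuous_magnetic.mul ((hΨc i).pow 2)))
    unfold energy
    have hk2 : (∑ e : Link D l, ∑ a : Fin n,
        ∫ U, (dlink B e a (fun U => ∑ i, c i * Ψ i U) U) ^ 2 ∂MU) ≤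
        (∑ i, c i ^ 2) * ∑ e : Link D l, ∑ a : Fin n,
          ∫ U, (∑ i, dlink B e a (Ψ i) U ^ 2) ∂MU := by
      rw [Finset.mul_sum]
      refine Finset.sum_le_sum fun e _ => ?_
      rw [Finset.mul_sum]
      exact Finset.sum_le_sum fun a _ => hkin e a
    have hg2 : 0 ≤ g ^ 2 / 2 := by positivity
    have hg3 : 0 ≤ 1 / g ^ 2 := by positivity
    have e1 := mul_le_mul_of_nonneg_left hk2 hg2
    have e2 := mul_le_mul_of_nonneg_left hpot hg3
    calc _ ≤ _ := add_le_add e1 e2
      _ = _ := by ring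

end

end Pool.Agent.Q164.LU
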