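import Pool.Agent.Q164.LU.B

/-! # Job THD: the chart in the tree gauge -/

set_option autoImplicit false
set_option linter.unusedSectionVars false

namespace Pool.Agent.Q164.LU

open Pool.Agent.Q77.LU
open MeasureTheory Matrix Set Filter Topology
open scoped ContDiff Matrix.Norms.Frobenius

noncomputable section

section gen

variable {E : Type} [NormedAddCommGroup E] [NormedSpace ℝ E] {N : ℕ} {G : Subgroup (UU N)}

lemma mt_inv' (g : G) : mt g⁻¹ = star (mt g) := rfl

lemma cd_mul {φ ψ : E → G} (h1 : ContDiff ℝ ∞ fun x => mt (φ x))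
    (h2 : ContDiff ℝ ∞ fun x => mt (ψ x)) : ContDiff ℝ ∞ fun x => mt (φ x * ψ x) := by
  simp only [mt_mul]
  exact h1.mul h2

lemma cd_inv {φ : E → G} (h1 : ContDiff ℝ ∞ fun x => mt (φ x)) :
    ContDiff ℝ ∞ fun x => mt (φ x)⁻¹ := by
  simp only [mt_inv']
  exact (starL' ℝ : Mt N ≃L[ℝ] Mt N).contDiff.comp h1

lemma cd_prod (m : ℕ) (φ : Fin m → E → G) (h : ∀ i, ContDiff ℝ ∞ fun x => mt (φ i x)) :
    ContDiff ℝ ∞ fun x => mt (List.ofFn fun i => φ i x).prod := by
  induction m with
  | zero => simpa using contDiff_const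
  | succ m ih =>
    simp only [List.ofFn_succ, List.prod_cons]
    exact cd_mul (h 0) (ih (fun i => φ i.succ) fun i => h i.succ)

/-- value `1` and derivative `A` at `0` -/
structure HD (φ : E → G) (A : E →L[ℝ] Mt N) : Prop where
  one : φ 0 = 1
  der : HasFDerivAt (fun x => mt (φ x)) A 0

lemma HD.mul {φ ψ : E → G} {A A' : E →L[ℝ] Mt N} (h : HD φ A) (h' : HD ψ A') :
    HD (fun x => φ x * ψ x) (A + A') := by
  refine ⟨by simp only [h.one, h'.one, one_mul], ?_⟩
  have h3 := h.der.mul' h'.der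
  simp only [h.one, h'.one, mt_one] at h3
  simp only [mt_mul]
  refine h3.congr_fderiv ?_
  refine ContinuousLinearMap.ext fun v => ?_
  show (1 : Mt N) * A' v + A v * (1 : Mt N) = A v + A' v
  rw [one_mul, mul_one, add_comm]

lemma hd_const : HD (fun _ : E => (1 : G)) 0 := ⟨rfl, hasFDerivAt_const _ _⟩

lemma HD.inv {φ : E → G} {A : E →L[ℝ] Mt N} (h : HD φ A) : HD (fun x => (φ x)⁻¹) (-A) := by
  refine ⟨by simp only [h.one, inv_one], ?_⟩
  have h1 : HasFDerivAt (fun x => mt (φ x)⁻¹) (((starL' ℝ : Mt N ≃L[ℝ] Mt N) :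
      Mt N →L[ℝ] Mt N) ∘L A) 0 := h.der.star
  have h2 : HD (fun x => (φ x)⁻¹) (((starL' ℝ : Mt N ≃L[ℝ] Mt N) :
      Mt N →L[ℝ] Mt N) ∘L A) := ⟨by simp only [h.one, inv_one], h1⟩
  have h3 := (h.mul h2).der
  simp only [mul_inv_cancel] at h3
  have h4 := h3.unique (hasFDerivAt_const (mt (1 : G)) (0 : E))
  have h5 := eq_neg_of_add_eq_zero_right h4
  rw [← h5]
  exact h1

lemma hd_prod (m : ℕ) (φ : Fin m → E → G) (A : Fin m → E →L[ℝ] Mt N)
    (h : ∀ i, HD (φ i) (A i)) : HD (fun x => (List.ofFn fun i => φ i x).prod) (∑ i, A i) := by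
  induction m with
  | zero => simpa using hd_const
  | succ m ih =>
    simp only [List.ofFn_succ, List.prod_cons, Fin.sum_univ_succ]
    exact (h 0).mul (ih (fun i => φ i.succ) (fun i => A i.succ) fun i => h i.succ)

end gen

section

variable {N n D l : ℕ} {G : Subgroup (UU N)} [NeZero l] {B : LieBasis G n}

/-- the sum over the path in the tree -/
def psum {V : Type} [AddCommMonoid V] (Y : Link D l → V) (x : Fin D → ZMod l) : V :=
  ∑ i : Fin D, ∑ s : Fin (x i).val,
    Y (fun j => if j < i then x j else if j = i then ((s : ℕ) : ZMod l) else 0, i)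

lemma psum_apply {ι : Type} (Y : Link D l → ι → ℝ) (x : Fin D → ZMod l) (a : ι) :
    psum Y x a = psum (fun e => Y e a) x := by
  unfold psum
  simp only [Finset.sum_apply]

lemma lin_add (B : LieBasis G n) (v w : Fin n → ℝ) : lin B (v + w) = lin B v + lin B w := by
  unfold lin
  simp only [Pi.add_apply, add_smul, Finset.sum_add_distrib]

lemma lin_smul (B : LieBasis G n) (c : ℝ) (v : Fin n → ℝ) : lin B (c • v) = c • lin B v := by
  unfold lin
  simp only [Pi.smul_apply, smul_eq_mul, mul_smul, Finset.smul_sum]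

/-- `lin` as a linear map -/
def linL (B : LieBasis G n) : (Fin n → ℝ) →ₗ[ℝ] Mt N where
  toFun := lin B
  map_add' := lin_add B
  map_smul' c v := lin_smul B c v

lemma lin_coord (B : LieBasis G n) (v : Fin n → ℝ) (a : Fin n) :
    (trace ((B.X a)ᴴ * lin B v)).re = v a := by
  unfold lin
  rw [Finset.mul_sum, trace_sum, Complex.re_sum, Finset.sum_eq_single a]
  · rw [mul_smul_comm, trace_smul, Complex.real_smul, Complex.re_ofReal_mul, B.orth, if_pos rfl,
      mul_one]
  · intro b _ hb
    rw [mul_smul_comm, trace_smul, Complex.real_smul, Complex.re_ofReal_mul, B.orth,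
      if_neg (Ne.symm hb), mul_zero]
  · intro h
    exact absurd (Finset.mem_univ a) h

lemma lin_inj (B : LieBasis G n) {v w : Fin n → ℝ} (h : lin B v = lin B w) : v = w := by
  funext a
  rw [← lin_coord B v a, ← lin_coord B w a, h]

/-- the field of a link, as a linear function of the coordinates -/
def xiL (dc : Dec B D l) (e : Link D l) :
    ((Fin D × Fin n → ℝ) × (Fin dc.M → ℝ)) →ₗ[ℝ] (Fin n → ℝ) where
  toFun x := fun a => dc.xi x (e, a)
  map_add' x y := by
    funext a
    simp only [Dec.xi, cons, Prod.fst_add, Prod.snd_add, Pi.add_apply, mul_add, add_mul,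
      Finset.sum_add_distrib]
    ring
  map_smul' c x := by
    funext a
    simp only [Dec.xi, cons, Prod.smul_fst, Prod.smul_snd, Pi.smul_apply, smul_eq_mul,
      RingHom.id_apply, mul_add, Finset.mul_sum]
    congr 1
    · ring
    · exact Finset.sum_congr rfl fun i _ => by ring

/-- derivative of the chart at `0` -/
def Yd (dc : Dec B D l) (e : Link D l) :
    ((Fin D × Fin n → ℝ) × (Fin dc.M → ℝ)) →L[ℝ] Mt N :=
  LinearMap.toContinuousLinearMap ((linL B).comp (xiL dc e))

lemma Yd_apply (dc : Dec B D l) (e : Link D l) (x : (Fin D × Fin n → ℝ) × (Fin dc.M → ℝ)) :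
    Yd dc e x = lin B (fun a => dc.xi x (e, a)) := rfl

lemma mt_eG (h0 : S_EXPG) (hG : IsClosed (G : Set (UU N))) (B : LieBasis G n) (v : Fin n → ℝ) :
    mt (eG B v) = NormedSpace.exp (lin B v) := by
  have h := h0 N n G hG B v
  unfold eG
  rw [dif_pos h]
  exact h.choose_spec

lemma lin_zero (B : LieBasis G n) : lin B (0 : Fin n → ℝ) = 0 := (linL B).map_zero

lemma hd_ch (h0 : S_EXPG) (hG : IsClosed (G : Set (UU N))) (dc : Dec B D l) (e : Link D l) :
    HD (fun x => dc.ch x e) (Yd dc e) := by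
  have h1 : ∀ x, mt (dc.ch x e) = NormedSpace.exp (Yd dc e x) := fun x => mt_eG h0 hG B _
  refine ⟨?_, ?_⟩
  · apply mt_inj
    rw [h1, map_zero, NormedSpace.exp_zero, mt_one]
  · simp only [h1]
    have h2 : HasFDerivAt (NormedSpace.exp : Mt N → Mt N) (1 : Mt N →L[ℝ] Mt N) (Yd dc e 0) := by
      rw [map_zero]
      exact hasFDerivAt_exp_zero
    exact (h2.comp (0 : (Fin D × Fin n → ℝ) × (Fin dc.M → ℝ)) (Yd dc e).hasFDerivAt)

lemma hd_pth (h0 : S_EXPG) (hG : IsClosed (G : Set (UU N))) (dc : Dec B D l)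
    (y : Fin D → ZMod l) : HD (fun x => pth (dc.ch x) y) (psum (Yd dc) y) := by
  unfold pth psum
  exact hd_prod _ _ _ fun i => hd_prod _ _ _ fun s => hd_ch h0 hG dc _

lemma hd_tg (h0 : S_EXPG) (hG : IsClosed (G : Set (UU N))) (dc : Dec B D l)
    (e : Link D l) : HD (fun x => tg (dc.ch x) e)
      (psum (Yd dc) e.1 + Yd dc e + -psum (Yd dc) (e.1 + unitv e.2)) := by
  unfold tg Pool.Agent.Q77.LU.gauge
  exact ((hd_pth h0 hG dc _).mul (hd_ch h0 hG dc _)).mul (hd_pth h0 hG dc _).inv

lemma cd_tg (h2 : S_SYMM) (hG : IsClosed (G : Set (UU N))) (dc : Dec B D l)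
    (e : Link D l) : ContDiff ℝ ∞ (fun x => mt (tg (dc.ch x) e)) := by
  have h3 := (h2 N n D l G hG B dc 1 0).2.2.2.2.2.2.2.2
  have h4 : ∀ e, ContDiff ℝ ∞ fun x => mt (dc.ch x e) := fun e => contDiff_pi.1 h3 e
  have h5 : ∀ y, ContDiff ℝ ∞ fun x => mt (pth (dc.ch x) y) := by
    intro y
    unfold pth
    exact cd_prod _ _ fun i => cd_prod _ _ fun s => h4 _
  unfold tg Pool.Agent.Q77.LU.gauge
  exact cd_mul (cd_mul (h5 _) (h4 _)) (cd_inv (h5 _))

/-- A divergence free gradient vanishes. -/
lemma grad_zero (y : Link D l → ℝ) (p : (Fin D → ZMod l) → ℝ)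
    (h1 : ∀ e, y e = p (e.1 + unitv e.2) - p e.1)
    (h2 : ∀ x : Fin D → ZMod l, ∑ i : Fin D, (y (x, i) - y (x - unitv i, i)) = 0) :
    ∀ e, y e = 0 := by
  have h3 : ∑ e : Link D l, y e ^ 2 = 0 := by
    have h4 : ∑ e : Link D l, y e ^ 2 =
        ∑ i : Fin D, ∑ x : Fin D → ZMod l, (y (x, i) * p (x + unitv i) - y (x, i) * p x) := by
      rw [Fintype.sum_prod_type, Finset.sum_comm]
      refine Finset.sum_congr rfl fun i _ => Finset.sum_congr rfl fun x _ => ?_
      have := h1 (x, i)
      simp only at this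
      rw [sq]
      nth_rw 2 [this]
      ring
    have h5 : ∀ i : Fin D, ∑ x : Fin D → ZMod l, (y (x, i) * p (x + unitv i) - y (x, i) * p x) =
        ∑ x : Fin D → ZMod l, -((y (x, i) - y (x - unitv i, i)) * p x) := by
      intro i
      rw [Finset.sum_sub_distrib]
      have h6 : ∑ x : Fin D → ZMod l, y (x, i) * p (x + unitv i) =
          ∑ x : Fin D → ZMod l, y (x - unitv i, i) * p x := by
        rw [← (Equiv.subRight (unitv i : Fin D → ZMod l)).sum_comp]
        refine Finset.sum_congr rfl fun x _ => ?_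
        simp only [Equiv.subRight_apply, sub_add_cancel]
      rw [h6, ← Finset.sum_sub_distrib]
      exact Finset.sum_congr rfl fun x _ => by ring
    rw [h4, Finset.sum_congr rfl fun i _ => h5 i, Finset.sum_comm]
    refine Finset.sum_eq_zero fun x _ => ?_
    rw [Finset.sum_neg_distrib, ← Finset.sum_mul, h2 x, zero_mul, neg_zero]
  intro e
  have h4 := (Finset.sum_eq_zero_iff_of_nonneg fun e _ => sq_nonneg (y e)).1 h3 e
    (Finset.mem_univ e)
  exact pow_eq_zero_iff (two_ne_zero) |>.1 h4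

/-- The field is divergence free. -/
lemma xi_div (dc : Dec B D l) (v : (Fin D × Fin n → ℝ) × (Fin dc.M → ℝ)) (x : Fin D → ZMod l)
    (a : Fin n) : ∑ i : Fin D, (dc.xi v ((x, i), a) - dc.xi v ((x - unitv i, i), a)) = 0 := by
  have h1 : ∀ i : Fin D, dc.xi v ((x, i), a) - dc.xi v ((x - unitv i, i), a) =
      ∑ j, v.2 j * (dc.b j ((x, i), a) - dc.b j ((x - unitv i, i), a)) := by
    intro i
    simp only [Dec.xi, cons, mul_sub, Finset.sum_sub_distrib]
    ring
  rw [Finset.sum_congr rfl fun i _ => h1 i, Finset.sum_comm]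
  refine Finset.sum_eq_zero fun j _ => ?_
  rw [← Finset.mul_sum, dc.div j x a, mul_zero]

/-- The field determines the coordinates. -/
lemma xi_inj (dc : Dec B D l) (v : (Fin D × Fin n → ℝ) × (Fin dc.M → ℝ))
    (h : ∀ p, dc.xi v p = 0) : v = 0 := by
  have h2 : v.2 = 0 := by
    funext j
    have h3 : ∑ p, dc.b j p * dc.xi v p = 0 :=
      Finset.sum_eq_zero fun p _ => by rw [h p, mul_zero]
    have h4 : ∑ p, dc.b j p * cons D l v.1 p = 0 := by
      simp only [cons]
      have h5 : ∑ p : Link D l × Fin n, dc.b j p * ((Real.sqrt ((l : ℝ) ^ D))⁻¹ *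
          v.1 (p.1.2, p.2)) = ∑ i : Fin D, ∑ a : Fin n, ((Real.sqrt ((l : ℝ) ^ D))⁻¹ *
            v.1 (i, a)) * ∑ x : Fin D → ZMod l, dc.b j ((x, i), a) := by
        rw [Fintype.sum_prod_type, Fintype.sum_prod_type, Finset.sum_comm]
        refine Finset.sum_congr rfl fun i _ => ?_
        rw [Finset.sum_comm]
        refine Finset.sum_congr rfl fun a _ => ?_
        rw [Finset.mul_sum]
        exact Finset.sum_congr rfl fun x _ => by ring
      rw [h5]
      refine Finset.sum_eq_zero fun i _ => Finset.sum_eq_zero fun a _ => ?_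
      rw [dc.mean j i a, mul_zero]
    have h6 : ∑ p, dc.b j p * dc.xi v p = v.2 j := by
      have h7 : ∀ p, dc.b j p * dc.xi v p =
          dc.b j p * cons D l v.1 p + ∑ i, v.2 i * (dc.b i p * dc.b j p) := by
        intro p
        simp only [Dec.xi, mul_add, Finset.mul_sum]
        congr 1
        exact Finset.sum_congr rfl fun i _ => by ring
      rw [Finset.sum_congr rfl fun p _ => h7 p, Finset.sum_add_distrib, h4, zero_add,
        Finset.sum_comm]
      rw [Finset.sum_eq_single j]
      · rw [← Finset.mul_sum, dc.orth, if_pos rfl, mul_one]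
      · intro i _ hi
        rw [← Finset.mul_sum, dc.orth, if_neg hi, mul_zero]
      · intro h
        exact absurd (Finset.mem_univ j) h
    rw [← h6, h3]
    rfl
  have h1 : v.1 = 0 := by
    funext q
    have h3 := h ((0, q.1), q.2)
    simp only [Dec.xi, h2, Pi.zero_apply, zero_mul, Finset.sum_const_zero, add_zero, cons] at h3
    have h4 : (Real.sqrt ((l : ℝ) ^ D))⁻¹ ≠ 0 := by
      have : (0 : ℝ) < l := by exact_mod_cast Nat.pos_of_ne_zero (NeZero.ne l)
      positivity
    rcases mul_eq_zero.1 h3 with h5 | h5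
    · exact absurd h5 h4
    · exact h5
  exact Prod.ext h1 h2

end

/-- The chart in the tree gauge is smooth and its derivative is injective. -/
theorem t_THD (h0 : S_EXPG) (h1 : S_TGA) (h2 : S_SYMM) : S_THD := by
  intro N n D l _ G hG B dc
  have htree : ∀ (e : Link D l), inT e → ∀ x, tg (dc.ch x) e = 1 := fun e he x =>
    (h1 N D l G (dc.ch x)).1 e he
  refine ⟨?_, ?_, ?_, ?_⟩
  · funext e
    exact (hd_tg h0 hG dc e.1).one
  · exact contDiff_pi.2 fun e => cd_tg h2 hG dc e.1
  · intro v hv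
    -- derivative of the components
    have h3 : HasFDerivAt (fun x (e : NT D l) => mt (dc.th x e))
        (ContinuousLinearMap.pi fun e : NT D l => psum (Yd dc) e.1.1 + Yd dc e.1 +
          -psum (Yd dc) (e.1.1 + unitv e.1.2)) 0 :=
      hasFDerivAt_pi.2 fun e => (hd_tg h0 hG dc e.1).der
    rw [h3.fderiv] at hv
    have h4 : ∀ e : Link D l, (psum (Yd dc) e.1 + Yd dc e +
        -psum (Yd dc) (e.1 + unitv e.2)) v = 0 := by
      intro e
      by_cases he : inT e
      · have h5 := (hd_tg h0 hG dc e).der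
        simp only [htree e he] at h5
        have h6 := h5.unique (hasFDerivAt_const (mt (1 : G)) _)
        rw [h6]
        rfl
      · exact congrFun hv ⟨e, he⟩
    have h5 : ∀ x, psum (Yd dc) x v = lin B (psum (fun e a => dc.xi v (e, a)) x) := by
      intro x
      unfold psum
      simp only [_root_.sum_apply, Yd_apply]
      show _ = linL B _
      simp only [map_sum]
      rfl
    have h6 : ∀ e : Link D l, (fun a => dc.xi v (e, a)) =
        psum (fun e a => dc.xi v (e, a)) (e.1 + unitv e.2) -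
          psum (fun e a => dc.xi v (e, a)) e.1 := by
      intro e
      apply lin_inj B
      have h7 := h4 e
      simp only [_root_.add_apply, _root_.neg_apply, h5,
        Yd_apply] at h7
      have h8 : lin B (psum (fun e a => dc.xi v (e, a)) (e.1 + unitv e.2) -
          psum (fun e a => dc.xi v (e, a)) e.1) =
          lin B (psum (fun e a => dc.xi v (e, a)) (e.1 + unitv e.2)) -
            lin B (psum (fun e a => dc.xi v (e, a)) e.1) := (linL B).map_sub _ _
      rw [h8]
      rw [← sub_eq_zero, ← h7]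
      abel
    apply xi_inj dc
    rintro ⟨e, a⟩
    refine grad_zero (fun e => dc.xi v (e, a))
      (fun x => psum (fun e a => dc.xi v (e, a)) x a) (fun e => ?_) (fun x => xi_div dc v x a) e
    exact congrFun (h6 e) a
  · intro x
    funext e
    unfold Pool.Agent.Q77.LU.ext
    split_ifs with he
    · exact (htree e he x).symm
    · rfl

end

end Pool.Agent.Q164.LU
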